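import Mathlib
import Pool.Agent.Lib.MinOddSub
import Pool.Agent.Lib.EvenDecomp

set_option autoImplicit false

namespace Pool.Agent.Results.MP_b4b0f8_co.OddRegular

open SimpleGraph

/-- The graph `H`, thought of as its set of edges together with the vertices incident to them, is
2-regular: it has an edge, and every vertex incident to an edge of `H` has exactly two neighbours
in `H`. -/
def TwoRegular {V : Type*} (H : SimpleGraph V) : Prop :=
  H ≠ ⊥ ∧ ∀ v, (∃ w, H.Adj v w) → (H.neighborSet v).ncard = 2

/-- `H` consists of a single edge. -/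
def SingleEdge {V : Type*} (H : SimpleGraph V) : Prop :=
  ∃ e : Sym2 V, H.edgeSet = {e}

/-- `P 0, ..., P (m - 1)` is a decomposition of `G` into `m` subgraphs, each of which is 2-regular
or a single edge: the parts are subgraphs of `G` and every edge of `G` lies in exactly one part. -/
structure IsDecomposition {V : Type*} (G : SimpleGraph V) (m : ℕ)
    (P : Fin m → SimpleGraph V) : Prop where
  le : ∀ i, P i ≤ G
  part : ∀ u v, G.Adj u v → ∃! i, (P i).Adj u v
  piece : ∀ i, TwoRegular (P i) ∨ SingleEdge (P i)

/-- `re G`: the least `m` such that `G` has a decomposition into `m` subgraphs, each of which is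
2-regular or a single edge. -/
noncomputable def re {V : Type*} (G : SimpleGraph V) : ℕ :=
  sInf {m | ∃ P : Fin m → SimpleGraph V, IsDecomposition G m P}

theorem compress {V ι : Type*} [Fintype ι] (G : SimpleGraph V) (Q : ι → SimpleGraph V)
    (hle : ∀ i, Q i ≤ G) (hpart : ∀ u v, G.Adj u v → ∃! i, (Q i).Adj u v)
    (hpiece : ∀ i, Q i = ⊥ ∨ TwoRegular (Q i) ∨ SingleEdge (Q i)) :
    ∃ m ≤ Fintype.card ι, ∃ P : Fin m → SimpleGraph V, IsDecomposition G m P := by
  classical
  let e := Fintype.equivFin {i // Q i ≠ ⊥}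
  refine ⟨Fintype.card {i // Q i ≠ ⊥}, Fintype.card_subtype_le _, fun j => Q (e.symm j).1,
    ⟨fun j => hle _, ?_, ?_⟩⟩
  · intro u v huv
    obtain ⟨i, hi, hi'⟩ := hpart u v huv
    have hne : Q i ≠ ⊥ := by
      intro h
      rw [h] at hi
      exact hi
    refine ⟨e ⟨i, hne⟩, by simpa using hi, ?_⟩
    intro j hj
    have h1 := hi' _ hj
    rw [← Equiv.symm_apply_eq]
    exact Subtype.ext h1
  · intro j
    rcases hpiece (e.symm j).1 with h | h
    · exact absurd h (e.symm j).2
    · exact h

open Classical in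
theorem exists_decomposition {V : Type*} [Fintype V] [Nonempty V] (G : SimpleGraph V)
    (k : ℕ) (hdeg : ∀ v, G.degree v = 2 * k + 1) :
    ∃ m ≤ Fintype.card V - 1, ∃ P : Fin m → SimpleGraph V, IsDecomposition G m P := by
  have hodd : ∀ v, Odd (G.degree v) := fun v => by rw [hdeg v]; exact ⟨k, rfl⟩
  have hsum : (2 * k + 1) * Fintype.card V ≤ ∑ v, G.degree v := by
    rw [Finset.sum_congr rfl (fun v _ => hdeg v), Finset.sum_const, smul_eq_mul,
      Finset.card_univ, mul_comm]
  obtain ⟨F, hFG, hFodd, hFcard⟩ := Pool.Agent.Lib.MinOddSub.exists_odd_sub G k hodd hsum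
  obtain ⟨H, hH⟩ : ∃ H : SimpleGraph V, ∀ u v, H.Adj u v ↔ (G.Adj u v ∧ ¬ F.Adj u v) :=
    ⟨G \ F, fun u v => SimpleGraph.sdiff_adj G F u v⟩
  have hHdeg : ∀ v, H.degree v + F.degree v = 2 * k + 1 := by
    intro v
    rw [← hdeg v, ← SimpleGraph.card_neighborFinset_eq_degree,
      ← SimpleGraph.card_neighborFinset_eq_degree, ← SimpleGraph.card_neighborFinset_eq_degree,
      ← Finset.card_union_of_disjoint]
    · congr 1
      ext w
      simp only [Finset.mem_union, SimpleGraph.mem_neighborFinset, hH]
      constructor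
      · rintro (h | h)
        · exact h.1
        · exact hFG h
      · intro h
        by_cases h2 : F.Adj v w
        · exact Or.inr h2
        · exact Or.inl ⟨h, h2⟩
    · rw [Finset.disjoint_left]
      intro w h1 h2
      rw [SimpleGraph.mem_neighborFinset] at h1 h2
      exact ((hH v w).1 h1).2 h2
  have hHeven : ∀ v, Even (H.degree v) := by
    intro v
    have h1 := hHdeg v
    obtain ⟨a, ha⟩ := hFodd v
    rw [Nat.even_iff]
    omega
  have hHle : ∀ v, H.degree v ≤ 2 * k := by
    intro v
    have h1 := hHdeg v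
    obtain ⟨a, ha⟩ := hFodd v
    omega
  obtain ⟨P, hP1, hP2, hP3⟩ := Pool.Agent.Lib.EvenDecomp.even_decomp H k hHeven hHle
  have hFHdisj : ∀ u v, F.Adj u v → ∀ i, ¬ (P i).Adj u v := fun u v h i h' =>
    ((hH u v).1 (hP2 i h')).2 h
  let Q : Fin k ⊕ F.edgeFinset → SimpleGraph V := fun x => match x with
    | Sum.inl i => P i
    | Sum.inr e => SimpleGraph.fromEdgeSet {e.1}
  have hQe : ∀ (e : F.edgeFinset) (u v : V), (Q (Sum.inr e)).Adj u v ↔ s(u, v) = e.1 := by
    intro e u v
    change (SimpleGraph.fromEdgeSet {e.1}).Adj u v ↔ _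
    rw [SimpleGraph.fromEdgeSet_adj, Set.mem_singleton_iff]
    constructor
    · exact fun h => h.1
    · intro h
      refine ⟨h, ?_⟩
      have he := SimpleGraph.mem_edgeFinset.1 e.2
      rw [← h, SimpleGraph.mem_edgeSet] at he
      exact he.ne
  obtain ⟨m, hm, R, hR⟩ := compress G Q (by
      rintro (i | e)
      · intro u v huv
        exact ((hH u v).1 (hP2 i huv)).1
      · intro u v huv
        rw [hQe] at huv
        have he := SimpleGraph.mem_edgeFinset.1 e.2
        rw [← huv, SimpleGraph.mem_edgeSet] at he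
        exact hFG he) (by
      intro u v huv
      by_cases hF : F.Adj u v
      · have hmem : s(u, v) ∈ F.edgeFinset := by
          rw [SimpleGraph.mem_edgeFinset, SimpleGraph.mem_edgeSet]; exact hF
        refine ⟨Sum.inr ⟨s(u, v), hmem⟩, (hQe _ _ _).2 rfl, ?_⟩
        rintro (i | e) h
        · exact absurd h (hFHdisj u v hF i)
        · have := (hQe _ _ _).1 h
          exact congrArg Sum.inr (Subtype.ext this.symm)
      · obtain ⟨i, hi, hi'⟩ := hP3 u v ((hH u v).2 ⟨huv, hF⟩)
        refine ⟨Sum.inl i, hi, ?_⟩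
        rintro (j | e) h
        · exact congrArg Sum.inl (hi' j h)
        · exfalso
          have h1 := (hQe _ _ _).1 h
          have he := SimpleGraph.mem_edgeFinset.1 e.2
          rw [← h1, SimpleGraph.mem_edgeSet] at he
          exact hF he) (by
      rintro (i | e)
      · by_cases hb : P i = ⊥
        · exact Or.inl hb
        · refine Or.inr (Or.inl ⟨hb, ?_⟩)
          rintro v ⟨w, hw⟩
          change (P i).Adj v w at hw
          have h0 : (P i).degree v ≠ 0 := by
            have := (SimpleGraph.degree_pos_iff_exists_adj (P i) v).2 ⟨w, hw⟩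
            omega
          have h2 : (P i).degree v = 2 := by
            rcases hP1 i v with h | h
            · exact absurd h h0
            · exact h
          change ((P i).neighborSet v).ncard = 2
          rw [← h2, ← SimpleGraph.card_neighborFinset_eq_degree, Set.ncard_eq_toFinset_card']
          rfl
      · refine Or.inr (Or.inr ⟨e.1, ?_⟩)
        ext f
        induction f with
        | _ u v =>
          rw [SimpleGraph.mem_edgeSet, hQe, Set.mem_singleton_iff])
  refine ⟨m, hm.trans ?_, R, hR⟩
  have h1 : Fintype.card (Fin k ⊕ F.edgeFinset) = k + F.edgeFinset.card := by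
    rw [Fintype.card_sum, Fintype.card_fin, Fintype.card_coe]
  have h2 : F.edgeFinset.card + k + 1 ≤ Fintype.card V := hFcard
  have h3 : Fintype.card (Fin k ⊕ F.edgeFinset) ≤ Fintype.card V - 1 := by
    rw [h1]; omega
  exact h3

/-- For every `k` and every nonempty finite `(2k+1)`-regular graph `G` on `n` vertices, `re G` (which
is attained) is at most `n - 1`. -/
theorem result {V : Type*} [Fintype V] [Nonempty V] (G : SimpleGraph V) [DecidableRel G.Adj]
    (k : ℕ) (hG : G.IsRegularOfDegree (2 * k + 1)) :
    IsLeast {m | ∃ P : Fin m → SimpleGraph V, IsDecomposition G m P} (re G) ∧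
      re G ≤ Fintype.card V - 1 := by
  have hinst : ∀ (v : V) (i j : Fintype (G.neighborSet v)),
      @SimpleGraph.degree V G v i = @SimpleGraph.degree V G v j := fun v i j => by
    rw [Subsingleton.elim i j]
  obtain ⟨m, hm, P, hP⟩ := exists_decomposition G k (fun v => (hinst v _ _).trans (hG v))
  refine ⟨⟨Nat.sInf_mem ⟨m, P, hP⟩, fun j hj => Nat.sInf_le hj⟩, ?_⟩
  have h : re G ≤ m := Nat.sInf_le ⟨P, hP⟩
  exact h.trans hm

end Pool.Agent.Results.MP_b4b0f8_co.OddRegular
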